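import Pool.Agent.H82.EUC.Stmts4

set_option autoImplicit false

namespace Pool.EUC

theorem lat_thm (h1 : MET_S) (h2 : JET_S) : LAT_S := by
  intro A _ dM dW hM hW μ0 μ2 P _ f hf
  have key : ∀ (S T : LowerSet P) (ν : Equiv.Perm A), Stb dM dW ν →
      (∃ S', WLe dW (f S').1 ν) → (∃ T', WLe dW ν (f T').1) →
      ∃ U, (f U).1 = ν := by
    rintro S T ν hν ⟨S', hS'⟩ ⟨T', hT'⟩
    have ha : WLe dW μ0 ν := fun w => (hS' w).trans ((f S').2.2.1 w)
    have hb : WLe dW ν μ2 := fun w => ((f T').2.2.2 w).trans (hT' w)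
    refine ⟨f.symm ⟨ν, hν, ha, hb⟩, ?_⟩
    rw [Equiv.apply_symm_apply]
  refine ⟨fun S => (f S).2.1, fun S T hST => (hf S T).1 hST,
    fun S T hST => f.injective (Subtype.ext hST), ?_, ?_, ?_⟩
  · intro S T ν hν hS hT
    obtain ⟨U, hU⟩ := key S T ν hν ⟨S, hS⟩ ⟨T, hT⟩
    refine ⟨U, (hf S U).2 (hU ▸ hS), (hf U T).2 (hU ▸ hT), hU⟩
  · intro S T
    obtain ⟨ρ, hρ, hm⟩ := h1 A dM dW hM hW (f S).1 (f T).1 (f S).2.1 (f T).2.1
    have ha : WLe dW μ0 ρ := by
      intro w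
      rw [hm.1 w]
      exact max_le ((f S).2.2.1 w) ((f T).2.2.1 w)
    have hb : WLe dW ρ μ2 := by
      intro w
      rw [hm.1 w]
      exact ((f S).2.2.2 w).trans (le_max_left _ _)
    obtain ⟨U, hU⟩ : ∃ U, (f U).1 = ρ :=
      ⟨f.symm ⟨ρ, hρ, ha, hb⟩, by rw [Equiv.apply_symm_apply]⟩
    have hUS : U ≤ S := by
      rw [hf, hU]
      intro w
      rw [hm.1 w]
      exact le_max_left _ _
    have hUT : U ≤ T := by
      rw [hf, hU]
      intro w
      rw [hm.1 w]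
      exact le_max_right _ _
    have hSU : S ⊓ T ≤ U := by
      rw [hf, hU]
      intro w
      rw [hm.1 w]
      exact max_le ((hf (S ⊓ T) S).1 inf_le_left w) ((hf (S ⊓ T) T).1 inf_le_right w)
    have hE : S ⊓ T = U := le_antisymm hSU (le_inf hUS hUT)
    change Meet dM dW (f S).1 (f T).1 (f (S ⊓ T)).1
    rw [hE, hU]
    exact hm
  · intro S T
    obtain ⟨ρ, hρ, hm⟩ := h2 A dM dW hM hW (f S).1 (f T).1 (f S).2.1 (f T).2.1
    have ha : WLe dW μ0 ρ := by
      intro w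
      rw [hm.1 w]
      exact (min_le_left _ _).trans ((f S).2.2.1 w)
    have hb : WLe dW ρ μ2 := by
      intro w
      rw [hm.1 w]
      exact le_min ((f S).2.2.2 w) ((f T).2.2.2 w)
    obtain ⟨U, hU⟩ : ∃ U, (f U).1 = ρ :=
      ⟨f.symm ⟨ρ, hρ, ha, hb⟩, by rw [Equiv.apply_symm_apply]⟩
    have hUS : S ≤ U := by
      rw [hf, hU]
      intro w
      rw [hm.1 w]
      exact min_le_left _ _
    have hUT : T ≤ U := by
      rw [hf, hU]
      intro w
      rw [hm.1 w]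
      exact min_le_right _ _
    have hSU : U ≤ S ⊔ T := by
      rw [hf, hU]
      intro w
      rw [hm.1 w]
      exact le_min ((hf S (S ⊔ T)).1 le_sup_left w) ((hf T (S ⊔ T)).1 le_sup_right w)
    have hE : S ⊔ T = U := le_antisymm (sup_le hUS hUT) hSU
    change Join dM dW (f S).1 (f T).1 (f (S ⊔ T)).1
    rw [hE, hU]
    exact hm

end Pool.EUC
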